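import Pool.Agent.H20.LIM.Targets

set_option autoImplicit false

open Complex MeasureTheory Set Filter Topology Metric

namespace Pool.Agent.H6.LIM

open Pool.Agent.H20.LIM

/-- The centred second moment of the disc. -/
theorem int_normsq (r : ℝ) (hr : 0 < r) :
    ∫ w in ball (0 : ℂ) r, ‖w‖ ^ 2 = Real.pi * r ^ 4 / 2 := by
  have h := integral_fun_norm_addHaar (volume : Measure ℂ)
    (fun y : ℝ => if y < r then y ^ 2 else 0)
  have h1 : ∫ w in ball (0 : ℂ) r, ‖w‖ ^ 2 = ∫ w : ℂ, (if ‖w‖ < r then ‖w‖ ^ 2 else 0) := by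
    rw [← integral_indicator measurableSet_ball]
    apply integral_congr_ae
    refine Filter.Eventually.of_forall fun w => ?_
    simp only [indicator, mem_ball_zero_iff]
  rw [h1, h]
  have h2 : ∫ y in Ioi (0 : ℝ), y ^ (Module.finrank ℝ ℂ - 1) • (if y < r then y ^ 2 else 0) =
      ∫ y in (0 : ℝ)..r, y ^ 3 := by
    rw [Complex.finrank_real_complex, intervalIntegral.integral_of_le hr.le,
      ← integral_indicator measurableSet_Ioi, ← integral_indicator measurableSet_Ioc]
    have hne : ∀ᵐ y : ℝ, y ≠ r := by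
      rw [ae_iff]; simp
    apply integral_congr_ae
    filter_upwards [hne] with y hy
    simp only [indicator, mem_Ioi, mem_Ioc]
    by_cases h0 : 0 < y
    · by_cases h3 : y < r
      · simp [h0, h3, h3.le]; ring
      · have : ¬ y ≤ r := fun h4 => h3 (lt_of_le_of_ne h4 hy)
        simp [h0, h3, this]
    · simp [h0]
  rw [h2, integral_pow, Complex.finrank_real_complex]
  have h3 : (volume : Measure ℂ).real (ball (0 : ℂ) 1) = Real.pi := by
    rw [Measure.real, Complex.volume_ball]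
    simp
  rw [h3]
  simp only [smul_eq_mul, nsmul_eq_mul]
  push_cast
  ring

theorem int_neg (r : ℝ) (f : ℂ → ℝ) :
    ∫ w in ball (0 : ℂ) r, f (-w) = ∫ w in ball (0 : ℂ) r, f w := by
  have h := (Measure.measurePreserving_neg (volume : Measure ℂ)).setIntegral_preimage_emb
    (MeasurableEquiv.neg ℂ).measurableEmbedding f (ball (0 : ℂ) r)
  have h2 : (Neg.neg ⁻¹' ball (0 : ℂ) r) = ball (0 : ℂ) r := by
    ext w; simp
  rw [h2] at h
  exact h

theorem int_rot (r : ℝ) (f : ℂ → ℝ) :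
    ∫ w in ball (0 : ℂ) r, f (I * w) = ∫ w in ball (0 : ℂ) r, f w := by
  let e : ℂ ≃ₗᵢ[ℝ] ℂ := rotation (Circle.exp (Real.pi / 2))
  have he : ∀ w : ℂ, e w = I * w := by
    intro w
    simp only [e, rotation_apply, Circle.coe_exp]
    congr 1
    push_cast
    exact Complex.exp_pi_div_two_mul_I
  have h := e.measurePreserving.setIntegral_preimage_emb
    e.toHomeomorph.measurableEmbedding f (ball (0 : ℂ) r)
  have h2 : (e ⁻¹' ball (0 : ℂ) r) = ball (0 : ℂ) r := by
    ext w; simp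
  rw [h2] at h
  rw [← h]
  simp only [he]

theorem contInt {f : ℂ → ℝ} (hf : Continuous f) (z : ℂ) (r : ℝ) : IntegrableOn f (ball z r) :=
  (hf.continuousOn.integrableOn_compact (isCompact_closedBall z r)).mono_set
    ball_subset_closedBall

theorem int_re_sq (r : ℝ) (hr : 0 < r) :
    ∫ w in ball (0 : ℂ) r, w.re ^ 2 = Real.pi * r ^ 4 / 4 := by
  have h1 := int_rot r (fun w => w.re ^ 2)
  have h2 : ∀ w : ℂ, (I * w).re ^ 2 = w.im ^ 2 := by intro w; simp
  simp only [h2] at h1
  have h3 := int_normsq r hr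
  have h4 : ∀ w : ℂ, ‖w‖ ^ 2 = w.re ^ 2 + w.im ^ 2 := by
    intro w; rw [← Complex.normSq_eq_norm_sq, Complex.normSq_apply]; ring
  simp only [h4] at h3
  rw [integral_add (contInt (by fun_prop) 0 r) (contInt (by fun_prop) 0 r), h1] at h3
  linarith

theorem int_re (r : ℝ) : ∫ w in ball (0 : ℂ) r, w.re = 0 := by
  have h := int_neg r (fun w => w.re)
  simp only [Complex.neg_re] at h
  rw [integral_neg] at h
  linarith

theorem int_im (r : ℝ) : ∫ w in ball (0 : ℂ) r, w.im = 0 := by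
  have h := int_neg r (fun w => w.im)
  simp only [Complex.neg_im] at h
  rw [integral_neg] at h
  linarith

theorem int_shift (r : ℝ) (z : ℂ) (f : ℂ → ℝ) :
    ∫ w in ball z r, f (w - z) = ∫ w in ball (0 : ℂ) r, f w := by
  have h := (measurePreserving_sub_right (volume : Measure ℂ) z).setIntegral_preimage_emb
    (MeasurableEquiv.subRight z).measurableEmbedding f (ball (0 : ℂ) r)
  have h2 : ((fun x : ℂ => x - z) ⁻¹' ball (0 : ℂ) r) = ball z r := by
    ext w; simp [dist_eq_norm]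
  rw [h2] at h
  exact h

theorem av_eq (r : ℝ) (hr : 0 < r) (f : ℂ → ℝ) (z : ℂ) :
    av r f z = (Real.pi * r ^ 2)⁻¹ * ∫ w in ball z r, f w := by
  rw [av, setAverage_eq, smul_eq_mul]
  congr 2
  rw [Measure.real, Complex.volume_ball]
  simp [ENNReal.toReal_ofReal hr.le]
  ring

/-- Averages of a linear combination. -/
theorem av_lin (r : ℝ) (hr : 0 < r) (z : ℂ) (v : ℂ → ℝ) (hv : Continuous v)
    (c0 c1 c2 c3 c4 : ℝ) :
    av r (fun w => c0 + c1 * (w - z).re + c2 * (w - z).im + c3 * (w - z).re ^ 2 + c4 * v w) z =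
      c0 + c3 * (r ^ 2 / 4) + c4 * av r v z := by
  have hp := Real.pi_pos
  rw [av_eq r hr, av_eq r hr]
  have i0 : IntegrableOn (fun _ : ℂ => c0) (ball z r) := contInt (by fun_prop) z r
  have i1 : IntegrableOn (fun w : ℂ => c1 * (w - z).re) (ball z r) :=
    contInt (by fun_prop) z r
  have i2 : IntegrableOn (fun w : ℂ => c2 * (w - z).im) (ball z r) :=
    contInt (by fun_prop) z r
  have i3 : IntegrableOn (fun w : ℂ => c3 * (w - z).re ^ 2) (ball z r) :=
    contInt (by fun_prop) z r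
  have i4 : IntegrableOn (fun w : ℂ => c4 * v w) (ball z r) :=
    contInt (by fun_prop) z r
  have j1 : IntegrableOn (fun w : ℂ => c0 + c1 * (w - z).re) (ball z r) :=
    contInt (by fun_prop) z r
  have j2 : IntegrableOn (fun w : ℂ => c0 + c1 * (w - z).re + c2 * (w - z).im) (ball z r) :=
    contInt (by fun_prop) z r
  have j3 : IntegrableOn (fun w : ℂ => c0 + c1 * (w - z).re + c2 * (w - z).im +
      c3 * (w - z).re ^ 2) (ball z r) := contInt (by fun_prop) z r
  rw [integral_add j3 i4, integral_add j2 i3, integral_add j1 i2, integral_add i0 i1]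
  rw [integral_const_mul, integral_const_mul, integral_const_mul, integral_const_mul,
    int_shift r z (fun w => w.re), int_shift r z (fun w => w.im),
    int_shift r z (fun w => w.re ^ 2), int_re, int_im, int_re_sq r hr, setIntegral_const]
  have h3 : (volume : Measure ℂ).real (ball z r) = Real.pi * r ^ 2 := by
    rw [Measure.real, Complex.volume_ball]
    simp [ENNReal.toReal_ofReal hr.le]
    ring
  rw [h3, smul_eq_mul]
  field_simp
  ring

theorem av_mono (r : ℝ) (hr : 0 < r) (z : ℂ) (f g : ℂ → ℝ) (hf : Continuous f)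
    (hg : Continuous g) (h : ∀ w ∈ ball z r, f w ≤ g w) : av r f z ≤ av r g z := by
  have hp := Real.pi_pos
  rw [av_eq r hr, av_eq r hr]
  exact mul_le_mul_of_nonneg_left (setIntegral_mono_on (contInt hf z r) (contInt hg z r)
    measurableSet_ball h) (by positivity)

theorem av_lower (r : ℝ) (hr : 0 < r) (z : ℂ) (v : ℂ → ℝ) (hv : Continuous v)
    (c0 c1 c2 c3 c4 : ℝ) (F : ℂ → ℝ) (hF : Continuous F)
    (h : ∀ w ∈ ball z r, c0 + c1 * (w - z).re + c2 * (w - z).im + c3 * (w - z).re ^ 2 +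
      c4 * v w ≤ F w) : c0 + c3 * (r ^ 2 / 4) + c4 * av r v z ≤ av r F z := by
  rw [← av_lin r hr z v hv c0 c1 c2 c3 c4]
  exact av_mono r hr z _ F (by fun_prop) hF h

theorem v1_cont (q : ℝ) : Continuous (v1 q) := by
  unfold v1
  refine Continuous.if_le (by fun_prop) (by fun_prop) (by fun_prop) continuous_const ?_
  intro z hz
  have : z.re ^ 2 = 1 / 4 := by rw [← sq_abs, hz]; norm_num
  rw [this, hz]; ring

/-- The supporting lines of `v1`. -/
theorem v1_ge (q : ℝ) (hq : 0 < q) (z : ℂ) (s : ℝ) (hs : |s| ≤ 1 / 2) :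
    q * (s * z.re + 1 / 8 - s ^ 2 / 2) ≤ v1 q z := by
  rw [v1]
  split_ifs with h
  · apply mul_le_mul_of_nonneg_left _ hq.le
    nlinarith [sq_nonneg (z.re - s)]
  · have h1 : s * z.re ≤ |s| * |z.re| := by rw [← abs_mul]; exact le_abs_self _
    have h2 : s ^ 2 = |s| ^ 2 := (sq_abs s).symm
    have h3 : 1 / 2 < |z.re| := not_le.1 h
    have h4 : s * z.re + 1 / 8 - s ^ 2 / 2 ≤ |z.re| / 2 := by
      rw [h2]
      nlinarith [mul_nonneg (sub_nonneg.2 hs) (sub_nonneg.2 h3.le), sq_nonneg (1 / 2 - |s|)]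
    have : q / 2 * |z.re| = q * (|z.re| / 2) := by ring
    rw [this]
    exact mul_le_mul_of_nonneg_left h4 hq.le

/-- The slope of `v1`. -/
theorem v1_slope (q : ℝ) (z : ℂ) : ∃ s : ℝ, |s| ≤ 1 / 2 ∧
    q * (s * z.re + 1 / 8 - s ^ 2 / 2) = v1 q z ∧ (|z.re| ≤ 1 / 2 → s = z.re) := by
  by_cases h : |z.re| ≤ 1 / 2
  · refine ⟨z.re, h, ?_, fun _ => rfl⟩
    rw [v1, if_pos h]; ring
  · rcases le_total 0 z.re with h0 | h0
    · refine ⟨1 / 2, by norm_num, ?_, fun h' => absurd h' h⟩
      rw [v1, if_neg h, abs_of_nonneg h0]; ring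
    · refine ⟨-(1 / 2), by rw [abs_neg]; norm_num, ?_, fun h' => absurd h' h⟩
      rw [v1, if_neg h, abs_of_nonpos h0]; ring

theorem psi_cont (ε : ℝ) (ψ ψ' : ℝ → ℝ) (_hε : 0 < ε) (h1 : ∀ y, |ψ' y| ≤ ε)
    (h2 : ∀ y y', |ψ y' - ψ y - ψ' y * (y' - y)| ≤ ε ^ 2 * (y' - y) ^ 2) : Continuous ψ := by
  rw [continuous_iff_continuousAt]
  intro y
  rw [ContinuousAt, tendsto_iff_norm_sub_tendsto_zero]
  have hb : ∀ y', ‖ψ y' - ψ y‖ ≤ ε ^ 2 * (y' - y) ^ 2 + ε * |y' - y| := by
    intro y'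
    rw [Real.norm_eq_abs]
    have e : ψ y' - ψ y = (ψ y' - ψ y - ψ' y * (y' - y)) + ψ' y * (y' - y) := by ring
    rw [e]
    refine (abs_add_le _ _).trans (add_le_add (h2 y y') ?_)
    rw [abs_mul]
    exact mul_le_mul_of_nonneg_right (h1 y) (abs_nonneg _)
  refine squeeze_zero (fun _ => norm_nonneg _) hb ?_
  have hc : Continuous (fun y' : ℝ => ε ^ 2 * (y' - y) ^ 2 + ε * |y' - y|) := by fun_prop
  have := hc.tendsto y
  simpa using this

theorem pf_cuta : T_CUTA := by
  intro q a v hq ha hv δ hδ hδ1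
  obtain ⟨K, hK⟩ := hv.lip
  obtain ⟨M, hM⟩ := hv.bdd
  have hM0 : 0 ≤ M := (abs_nonneg _).trans (hM 0)
  set W : ℂ → ℝ := fun z => v z - q / 2 * |z.re| with hW
  set Kw : ℝ := K + q / 2 with hKw
  have hKw0 : 0 ≤ Kw := by positivity
  have hWl : ∀ z w : ℂ, |W w - W z| ≤ Kw * ‖w - z‖ := by
    intro z w
    have e : W w - W z = (v w - v z) - q / 2 * (|w.re| - |z.re|) := by
      simp only [hW]; ring
    rw [e]
    have h1 : |v w - v z| ≤ K * ‖w - z‖ := by
      have := hK.dist_le_mul w z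
      rwa [Real.dist_eq, dist_eq_norm] at this
    have h2 : |q / 2 * (|w.re| - |z.re|)| ≤ q / 2 * ‖w - z‖ := by
      rw [abs_mul, abs_of_pos (by positivity : 0 < q / 2)]
      refine mul_le_mul_of_nonneg_left ?_ (by positivity)
      refine (abs_abs_sub_abs_le_abs_sub _ _).trans ?_
      rw [← Complex.sub_re]
      exact Complex.abs_re_le_norm _
    calc |(v w - v z) - q / 2 * (|w.re| - |z.re|)| ≤ |v w - v z| + |q / 2 * (|w.re| - |z.re|)| :=
          abs_sub _ _
      _ ≤ K * ‖w - z‖ + q / 2 * ‖w - z‖ := add_le_add h1 h2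
      _ = Kw * ‖w - z‖ := by rw [hKw]; ring
  set a' : ℝ := max a 0 with ha'
  have ha'2 : a' < 1 / 2 := max_lt ha (by norm_num)
  have ha'0 : 0 ≤ a' := le_max_right _ _
  have hWz : ∀ z : ℂ, a' ≤ |z.re| → W z = 0 := by
    intro z hz
    simp only [hW]
    rw [hv.out z ((le_max_left _ _).trans hz)]
    ring
  refine ⟨min 1 (δ * q / (8 * (Kw + M + 1))), (1 / 2 - a') / 2, by positivity, by linarith, ?_⟩
  intro ε ψ ψ' hε hε0 hψ hψ' hT r hr hr0 z
  have hε1 : ε ≤ 1 := hε0.trans (min_le_left _ _)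
  have hε2 : ε * Kw + ε ^ 2 * M ≤ δ * q / 8 := by
    have h1 : ε ≤ δ * q / (8 * (Kw + M + 1)) := hε0.trans (min_le_right _ _)
    rw [le_div_iff₀ (by positivity)] at h1
    nlinarith [mul_nonneg hε.le hM0, mul_nonneg hε.le (sub_nonneg.2 hε1), hM0,
      mul_nonneg (mul_nonneg hε.le (sub_nonneg.2 hε1)) hM0]
  have hψc : Continuous ψ := psi_cont ε ψ ψ' hε hψ' hT
  have hvc : Continuous v := hK.continuous
  have hFc : Continuous (fun z : ℂ => (1 - δ) * (q / 2 * |z.re| +
      ψ z.im * (v z - q / 2 * |z.re|)) + δ * v1 q z) := by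
    have := v1_cont q
    fun_prop
  obtain ⟨s, hs, hs1, hs2⟩ := v1_slope q z
  obtain ⟨σ, hσ1, hσ2⟩ : ∃ σ : ℝ, |σ| ≤ 1 ∧ σ * z.re = |z.re| := by
    rcases le_total 0 z.re with h0 | h0
    · exact ⟨1, by norm_num, by rw [abs_of_nonneg h0]; ring⟩
    · exact ⟨-1, by norm_num, by rw [abs_of_nonpos h0]; ring⟩
  have hφ : ∀ w : ℂ, |z.re| + σ * (w - z).re ≤ |w.re| := by
    intro w
    have h1 : σ * w.re ≤ |w.re| := by
      calc σ * w.re ≤ |σ * w.re| := le_abs_self _
        _ = |σ| * |w.re| := abs_mul _ _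
        _ ≤ 1 * |w.re| := mul_le_mul_of_nonneg_right hσ1 (abs_nonneg _)
        _ = |w.re| := one_mul _
    rw [Complex.sub_re, mul_sub]
    linarith
  have hv1 : ∀ w : ℂ, v1 q z + q * s * (w - z).re ≤ v1 q w := by
    intro w
    have := v1_ge q hq w s hs
    rw [Complex.sub_re, ← hs1]
    calc q * (s * z.re + 1 / 8 - s ^ 2 / 2) + q * s * (w.re - z.re)
        = q * (s * w.re + 1 / 8 - s ^ 2 / 2) := by ring
      _ ≤ v1 q w := this
  set p : ℝ := ψ z.im with hp
  have hp0 : 0 ≤ p := (hψ _).1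
  have hp1 : p ≤ 1 := (hψ _).2
  have h1δ : 0 ≤ 1 - δ := by linarith
  by_cases hc : |z.re| < a' + r
  · -- near the centre of the strip
    have hin : ∀ w ∈ ball z r, |w.re| ≤ 1 / 2 := by
      intro w hw
      rw [mem_ball, dist_eq_norm] at hw
      have h1 : |w.re| ≤ |z.re| + |(w - z).re| := by
        have : w.re = z.re + (w - z).re := by rw [Complex.sub_re]; ring
        rw [this]; exact abs_add_le _ _
      have h2 := Complex.abs_re_le_norm (w - z)
      linarith
    have hzin : |z.re| ≤ 1 / 2 := hin z (mem_ball_self hr)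
    have hsz : s = z.re := hs2 hzin
    have hv1' : ∀ w ∈ ball z r, v1 q w =
        v1 q z + q * s * (w - z).re + q / 2 * (w - z).re ^ 2 := by
      intro w hw
      rw [v1, if_pos (hin w hw), v1, if_pos hzin, hsz, Complex.sub_re]
      ring
    set E : ℝ := (ε * Kw + ε ^ 2 * M) * r ^ 2 with hE
    have hlow : ∀ w ∈ ball z r,
        ((1 - δ) * ((1 - p) * (q / 2 * |z.re|) - E) + δ * v1 q z) +
          ((1 - δ) * (1 - p) * (q / 2) * σ + δ * q * s) * (w - z).re +
          ((1 - δ) * ψ' z.im * W z) * (w - z).im + (δ * (q / 2)) * (w - z).re ^ 2 +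
          ((1 - δ) * p) * v w ≤
        (1 - δ) * (q / 2 * |w.re| + ψ w.im * (v w - q / 2 * |w.re|)) + δ * v1 q w := by
      intro w hw
      rw [hv1' w hw]
      have hwr : ‖w - z‖ < r := by rwa [mem_ball, dist_eq_norm] at hw
      have him : |(w - z).im| ≤ r := (Complex.abs_im_le_norm _).trans hwr.le
      have hX : -E ≤ (ψ w.im - p) * W w - ψ' z.im * W z * (w - z).im := by
        have e : (ψ w.im - p) * W w - ψ' z.im * W z * (w - z).im =
            (ψ w.im - ψ z.im - ψ' z.im * (w.im - z.im)) * W w +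
              ψ' z.im * (w - z).im * (W w - W z) := by
          rw [Complex.sub_im, hp]; ring
        rw [e]
        have b1 : |(ψ w.im - ψ z.im - ψ' z.im * (w.im - z.im)) * W w| ≤ ε ^ 2 * r ^ 2 * M := by
          rw [abs_mul]
          have c1 := hT z.im w.im
          have c2 : (w.im - z.im) ^ 2 ≤ r ^ 2 := by
            rw [← Complex.sub_im, ← sq_abs]
            exact pow_le_pow_left₀ (abs_nonneg _) him 2
          have c3 : |ψ w.im - ψ z.im - ψ' z.im * (w.im - z.im)| ≤ ε ^ 2 * r ^ 2 :=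
            c1.trans (mul_le_mul_of_nonneg_left c2 (by positivity))
          exact mul_le_mul c3 (hM w) (abs_nonneg _) (by positivity)
        have b2 : |ψ' z.im * (w - z).im * (W w - W z)| ≤ ε * r * (Kw * r) := by
          rw [abs_mul, abs_mul]
          have c1 : |ψ' z.im| * |(w - z).im| ≤ ε * r :=
            mul_le_mul (hψ' _) him (abs_nonneg _) hε.le
          have c2 : |W w - W z| ≤ Kw * r :=
            (hWl z w).trans (mul_le_mul_of_nonneg_left hwr.le hKw0)
          exact mul_le_mul c1 c2 (abs_nonneg _) (by positivity)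
        have b3 := (abs_le.1 b1).1
        have b4 := (abs_le.1 b2).1
        rw [hE]
        nlinarith
      have hφw := hφ w
      have e2 : (1 - δ) * (q / 2 * |w.re| + ψ w.im * (v w - q / 2 * |w.re|)) =
          (1 - δ) * (p * v w + (1 - p) * (q / 2 * |w.re|) + (ψ w.im - p) * W w) := by
        simp only [hW]; ring
      rw [e2]
      have hφ2 : (1 - p) * (q / 2 * (|z.re| + σ * (w - z).re)) ≤ (1 - p) * (q / 2 * |w.re|) :=
        mul_le_mul_of_nonneg_left (mul_le_mul_of_nonneg_left hφw (by positivity)) (by linarith)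
      have h5 : (1 - δ) * (p * v w + (1 - p) * (q / 2 * (|z.re| + σ * (w - z).re)) +
          (ψ' z.im * W z * (w - z).im - E)) ≤
          (1 - δ) * (p * v w + (1 - p) * (q / 2 * |w.re|) + (ψ w.im - p) * W w) :=
        mul_le_mul_of_nonneg_left (by linarith) h1δ
      calc _ = (1 - δ) * (p * v w + (1 - p) * (q / 2 * (|z.re| + σ * (w - z).re)) +
          (ψ' z.im * W z * (w - z).im - E)) +
            δ * (v1 q z + q * s * (w - z).re + q / 2 * (w - z).re ^ 2) := by ring
        _ ≤ _ := by linarith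
    refine le_trans ?_ (av_lower r hr z v hvc _ _ _ _ _ _ hFc hlow)
    have hsub := hv.sub r hr z
    have h6 : (1 - δ) * p * v z ≤ (1 - δ) * p * av r v z :=
      mul_le_mul_of_nonneg_left hsub (mul_nonneg h1δ hp0)
    have h7 : (1 - δ) * E ≤ δ * (q / 2) * (r ^ 2 / 4) := by
      have h8 : E ≤ δ * q / 8 * r ^ 2 := mul_le_mul_of_nonneg_right hε2 (by positivity)
      have h9 : 0 ≤ E := by rw [hE]; positivity
      have h10 : δ * E ≥ 0 := mul_nonneg hδ.le h9
      linarith
    have h11 : (1 - δ) * (q / 2 * |z.re| + p * (v z - q / 2 * |z.re|)) + δ * v1 q z =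
      (1 - δ) * ((1 - p) * (q / 2 * |z.re|)) + δ * v1 q z + (1 - δ) * p * v z := by ring
    rw [h11]
    have h12 : (1 - δ) * ((1 - p) * (q / 2 * |z.re|) - E) =
      (1 - δ) * ((1 - p) * (q / 2 * |z.re|)) - (1 - δ) * E := by ring
    rw [h12]
    linarith
  · -- outside of the strip `|Re z| < a' + r`
    have hc' : a' + r ≤ |z.re| := not_lt.1 hc
    have hW0 : ∀ w ∈ ball z r, W w = 0 := by
      intro w hw
      rw [mem_ball, dist_eq_norm] at hw
      apply hWz
      have h1 : |z.re| ≤ |w.re| + |(w - z).re| := by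
        have : z.re = w.re + -(w - z).re := by rw [Complex.sub_re]; ring
        rw [this]
        refine (abs_add_le _ _).trans ?_
        rw [abs_neg]
      have h2 := Complex.abs_re_le_norm (w - z)
      linarith
    have hWz0 : W z = 0 := hW0 z (mem_ball_self hr)
    have hlow : ∀ w ∈ ball z r,
        ((1 - δ) * (q / 2 * |z.re|) + δ * v1 q z) +
          ((1 - δ) * (q / 2) * σ + δ * q * s) * (w - z).re +
          0 * (w - z).im + 0 * (w - z).re ^ 2 + 0 * v w ≤
        (1 - δ) * (q / 2 * |w.re| + ψ w.im * (v w - q / 2 * |w.re|)) + δ * v1 q w := by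
      intro w hw
      have h0 : v w - q / 2 * |w.re| = 0 := hW0 w hw
      rw [h0]
      have h1 : (1 - δ) * (q / 2 * (|z.re| + σ * (w - z).re)) ≤ (1 - δ) * (q / 2 * |w.re|) :=
        mul_le_mul_of_nonneg_left (mul_le_mul_of_nonneg_left (hφ w) (by positivity)) h1δ
      have h2 : δ * (v1 q z + q * s * (w - z).re) ≤ δ * v1 q w :=
        mul_le_mul_of_nonneg_left (hv1 w) hδ.le
      nlinarith
    refine le_trans (le_of_eq ?_) (av_lower r hr z v hvc _ _ _ _ _ _ hFc hlow)
    have h0 : v z - q / 2 * |z.re| = 0 := hWz0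
    rw [h0]; ring

end Pool.Agent.H6.LIM
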