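import Pool.Agent.H6.LIM.CUTA

set_option autoImplicit false

open Complex MeasureTheory Set Filter Topology Metric

namespace Pool.Agent.H6.LIM

open Pool.Agent.H20.LIM

/-- The function of CUTA. -/
noncomputable def Fc (q δ : ℝ) (ψ : ℝ → ℝ) (v : ℂ → ℝ) (z : ℂ) : ℝ :=
  (1 - δ) * (q / 2 * |z.re| + ψ z.im * (v z - q / 2 * |z.re|)) + δ * v1 q z

/-- The cut off difference. -/
noncomputable def Wc (q : ℝ) (ψ : ℝ → ℝ) (v : ℂ → ℝ) (z : ℂ) : ℝ :=
  ψ z.im * (v z - q / 2 * |z.re|)

/-- The shift by `n P i`. -/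
noncomputable def sh (P : ℝ) (n : ℤ) (z : ℂ) : ℂ := z - (((n : ℝ) * P : ℝ) : ℂ) * I

theorem sh_re (P : ℝ) (n : ℤ) (z : ℂ) : (sh P n z).re = z.re := by
  simp [sh]

theorem sh_im (P : ℝ) (n : ℤ) (z : ℂ) : (sh P n z).im = z.im - n * P := by
  simp only [sh, Complex.sub_im, Complex.mul_im, Complex.ofReal_re, Complex.ofReal_im,
    Complex.I_re, Complex.I_im]
  ring

/-- The periodic function. -/
noncomputable def Vc (q δ P : ℝ) (ψ : ℝ → ℝ) (v : ℂ → ℝ) (z : ℂ) : ℝ :=
  Fc q δ ψ v (sh P (round (z.im / P)) z)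

theorem v1_eq (q : ℝ) (z z' : ℂ) (h : z.re = z'.re) : v1 q z = v1 q z' := by
  simp only [v1, h]

theorem Fc_sh (q δ P : ℝ) (ψ : ℝ → ℝ) (v : ℂ → ℝ) (n : ℤ) (z : ℂ) :
    Fc q δ ψ v (sh P n z) =
      (1 - δ) * (q / 2 * |z.re| + Wc q ψ v (sh P n z)) + δ * v1 q z := by
  rw [Fc, Wc, v1_eq q (sh P n z) z (sh_re P n z), sh_re]

theorem v1_near (q : ℝ) (hq : 0 < q) (z : ℂ) : abs (v1 q z - q / 2 * |z.re|) ≤ q := by
  rw [v1]
  split_ifs with h
  · have h0 := abs_nonneg z.re
    have h1 : z.re ^ 2 = |z.re| ^ 2 := (sq_abs _).symm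
    rw [h1]
    have e : q * (|z.re| ^ 2 / 2 + 1 / 8) - q / 2 * |z.re| = q * ((|z.re| - 1 / 2) ^ 2 / 2) := by
      ring
    rw [e, abs_of_nonneg (by positivity)]
    have h2 : (|z.re| - 1 / 2) ^ 2 / 2 ≤ 1 := by nlinarith
    calc q * ((|z.re| - 1 / 2) ^ 2 / 2) ≤ q * 1 := mul_le_mul_of_nonneg_left h2 hq.le
      _ = q := mul_one q
  · simp [hq.le]

theorem v1_out (q : ℝ) (z : ℂ) (h : 1 / 2 ≤ |z.re|) : v1 q z = q / 2 * |z.re| := by
  rw [v1]
  split_ifs with h1
  · have h2 : |z.re| = 1 / 2 := le_antisymm h1 h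
    have h3 : z.re ^ 2 = 1 / 4 := by rw [← sq_abs, h2]; norm_num
    rw [h3, h2]; ring
  · rfl

theorem v1_lip (q : ℝ) (hq : 0 < q) (z w : ℂ) : |v1 q z - v1 q w| ≤ q / 2 * ‖z - w‖ := by
  have key : ∀ z w : ℂ, v1 q z - v1 q w ≤ q / 2 * ‖z - w‖ := by
    intro z w
    obtain ⟨s, hs, hs1, -⟩ := v1_slope q z
    have h1 := v1_ge q hq w s hs
    rw [← hs1]
    have h2 : q * (s * z.re + 1 / 8 - s ^ 2 / 2) - q * (s * w.re + 1 / 8 - s ^ 2 / 2) =
        q * (s * (z - w).re) := by rw [Complex.sub_re]; ring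
    have h3 : s * (z - w).re ≤ 1 / 2 * ‖z - w‖ := by
      calc s * (z - w).re ≤ |s * (z - w).re| := le_abs_self _
        _ = |s| * |(z - w).re| := abs_mul _ _
        _ ≤ 1 / 2 * ‖z - w‖ := mul_le_mul hs (Complex.abs_re_le_norm _) (abs_nonneg _)
          (by norm_num)
    have h4 : q * (s * (z - w).re) ≤ q * (1 / 2 * ‖z - w‖) := mul_le_mul_of_nonneg_left h3 hq.le
    linarith
  rw [abs_le]
  constructor
  · have := key w z
    rw [norm_sub_rev] at this
    linarith
  · exact key z w

theorem absre_lip (z w : ℂ) : abs (|z.re| - |w.re|) ≤ ‖z - w‖ := by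
  refine (abs_abs_sub_abs_le_abs_sub _ _).trans ?_
  rw [← Complex.sub_re]
  exact Complex.abs_re_le_norm _

theorem av_sh (r : ℝ) (hr : 0 < r) (F : ℂ → ℝ) (P : ℝ) (n : ℤ) (z : ℂ) :
    av r (fun w => F (sh P n w)) z = av r F (sh P n z) := by
  rw [av_eq r hr, av_eq r hr]
  congr 1
  have h1 := int_shift r z (fun u => F (u + sh P n z))
  have h2 := int_shift r (sh P n z) (fun u => F (u + sh P n z))
  simp only [sub_add_cancel] at h2
  rw [h2, ← h1]
  apply setIntegral_congr_fun measurableSet_ball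
  intro w _
  simp only
  congr 1
  simp only [sh]
  ring

theorem pf_cut (hPSI : T_PSI) (hCUTA : T_CUTA) : T_CUT := by
  intro q a v hq ha hv R δ hδ
  obtain ⟨K, hK⟩ := hv.lip
  obtain ⟨M, hM⟩ := hv.bdd
  have hM0 : 0 ≤ M := (abs_nonneg _).trans (hM 0)
  -- constants
  set R' : ℝ := max R 0 with hR'
  have hR'0 : 0 ≤ R' := le_max_right _ _
  have hπ := Real.pi_pos
  set η : ℝ := δ / (Real.pi * R' ^ 2 + 1) with hη
  have hη0 : 0 < η := by positivity
  set d : ℝ := min 1 (η / (2 * (q + M + 1))) with hd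
  have hd0 : 0 < d := by positivity
  have hd1 : d ≤ 1 := min_le_left _ _
  have hd2 : d * (q + M) ≤ η / 2 := by
    have h1 : d ≤ η / (2 * (q + M + 1)) := min_le_right _ _
    rw [le_div_iff₀ (by positivity)] at h1
    nlinarith
  obtain ⟨ε₀, r₀, hε₀, hr₀, hF⟩ := hCUTA q a v hq ha hv d hd0 hd1
  set ε : ℝ := min (min 1 ε₀) (min (η / (2 * (R' ^ 2 * M + 1))) (1 / (R' + 1))) with hεd
  have hε : 0 < ε := by positivity
  have hε1 : ε ≤ 1 := (min_le_left _ _).trans (min_le_left _ _)
  have hε2 : ε ≤ ε₀ := (min_le_left _ _).trans (min_le_right _ _)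
  have hε3 : (ε * R') ^ 2 * M ≤ η / 2 := by
    have h1 : ε ≤ η / (2 * (R' ^ 2 * M + 1)) := (min_le_right _ _).trans (min_le_left _ _)
    rw [le_div_iff₀ (by positivity)] at h1
    have h2 : ε ^ 2 ≤ ε := by nlinarith
    have h3 : (ε * R') ^ 2 * M = ε ^ 2 * (R' ^ 2 * M) := by ring
    rw [h3]
    have h4 : ε ^ 2 * (R' ^ 2 * M) ≤ ε * (R' ^ 2 * M) :=
      mul_le_mul_of_nonneg_right h2 (by positivity)
    nlinarith
  have hε4 : ε * (R' + 1) ≤ 1 := by
    have h1 : ε ≤ 1 / (R' + 1) := (min_le_right _ _).trans (min_le_right _ _)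
    rwa [le_div_iff₀ (by positivity)] at h1
  obtain ⟨ψ, ψ', hψ, hψ0, hψ1, hψ', hT⟩ := hPSI ε hε
  set P : ℝ := Real.pi / ε + 2 with hP
  have hP2 : P / 2 - 1 = Real.pi / (2 * ε) := by
    rw [hP]; field_simp; ring
  have hPR : R' ≤ P / 2 - 1 := by
    rw [hP2, le_div_iff₀ (by positivity)]
    nlinarith [Real.pi_gt_three]
  have hP0 : 0 < P := by linarith
  -- the cut off function
  set S : ℂ → ℝ := fun z => Wc q ψ v (sh P (round (z.im / P)) z) with hS
  have hW0 : ∀ z : ℂ, P / 2 - 1 ≤ |z.im| → Wc q ψ v z = 0 := by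
    intro z hz
    rw [Wc, hψ0 _ (by rwa [← hP2]), zero_mul]
  have hnear : ∀ z : ℂ, |z.im - (round (z.im / P) : ℤ) * P| ≤ P / 2 := by
    intro z
    have h := abs_sub_round (z.im / P)
    have h1 : z.im - (round (z.im / P) : ℤ) * P = (z.im / P - (round (z.im / P) : ℤ)) * P := by
      field_simp
    rw [h1, abs_mul, abs_of_pos hP0]
    nlinarith
  have hA : ∀ (z : ℂ) (n : ℤ), |z.im - n * P| ≤ P / 2 + 1 → S z = Wc q ψ v (sh P n z) := by
    intro z n hn
    by_cases h : round (z.im / P) = n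
    · simp only [hS, h]
    · have h1 := hnear z
      have h2 : (1 : ℝ) ≤ |((round (z.im / P) : ℤ) : ℝ) - n| := by
        rw [← Int.cast_sub, ← Int.cast_abs]
        exact_mod_cast Int.one_le_abs (sub_ne_zero.2 h)
      have h3 : P ≤ |((round (z.im / P) : ℤ) : ℝ) - n| * P := by nlinarith
      have h4 : |((round (z.im / P) : ℤ) : ℝ) - n| * P ≤
          |z.im - n * P| + |z.im - (round (z.im / P) : ℤ) * P| := by
        rw [← abs_of_pos hP0, ← abs_mul, abs_of_pos hP0]
        have : (((round (z.im / P) : ℤ) : ℝ) - n) * P =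
            (z.im - n * P) - (z.im - (round (z.im / P) : ℤ) * P) := by ring
        rw [this]
        exact abs_sub _ _
      have e1 : S z = 0 := by
        apply hW0
        rw [sh_im]
        linarith
      have e2 : Wc q ψ v (sh P n z) = 0 := by
        apply hW0
        rw [sh_im]
        linarith
      rw [e1, e2]
  have hV : ∀ z : ℂ, Vc q d P ψ v z =
      (1 - d) * (q / 2 * |z.re| + S z) + d * v1 q z := fun z => Fc_sh q d P ψ v _ z
  have hWl : ∀ z w : ℂ, abs ((v w - q / 2 * |w.re|) - (v z - q / 2 * |z.re|)) ≤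
      (K + q / 2) * ‖w - z‖ := by
    intro z w
    have e : (v w - q / 2 * |w.re|) - (v z - q / 2 * |z.re|) =
        (v w - v z) - q / 2 * (|w.re| - |z.re|) := by ring
    rw [e]
    have h1 : |v w - v z| ≤ K * ‖w - z‖ := by
      have := hK.dist_le_mul w z
      rwa [Real.dist_eq, dist_eq_norm] at this
    have h2 : |q / 2 * (|w.re| - |z.re|)| ≤ q / 2 * ‖w - z‖ := by
      rw [abs_mul, abs_of_pos (by positivity : 0 < q / 2)]
      exact mul_le_mul_of_nonneg_left (absre_lip w z) (by positivity)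
    calc _ ≤ |v w - v z| + |q / 2 * (|w.re| - |z.re|)| := abs_sub _ _
      _ ≤ K * ‖w - z‖ + q / 2 * ‖w - z‖ := add_le_add h1 h2
      _ = (K + q / 2) * ‖w - z‖ := by ring
  have hψl : ∀ y y' : ℝ, |ψ y' - ψ y| ≤ 2 * |y' - y| := by
    intro y y'
    rcases le_total |y' - y| 1 with h | h
    · have e : ψ y' - ψ y = (ψ y' - ψ y - ψ' y * (y' - y)) + ψ' y * (y' - y) := by ring
      rw [e]
      refine (abs_add_le _ _).trans ?_
      rw [abs_mul]
      have h1 := hT y y'
      have h2 : |ψ' y| * |y' - y| ≤ 1 * |y' - y| :=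
        mul_le_mul_of_nonneg_right ((hψ' y).trans hε1) (abs_nonneg _)
      have h3 : (y' - y) ^ 2 ≤ |y' - y| := by
        rw [← sq_abs]; nlinarith [abs_nonneg (y' - y)]
      have h4 : ε ^ 2 * (y' - y) ^ 2 ≤ 1 * |y' - y| :=
        mul_le_mul (by nlinarith) h3 (by positivity) (by norm_num)
      linarith
    · have h1 := hψ y
      have h2 := hψ y'
      have h3 : |ψ y' - ψ y| ≤ 1 := by rw [abs_le]; constructor <;> linarith
      linarith
  have hWc : ∀ z w : ℂ, |Wc q ψ v w - Wc q ψ v z| ≤ (2 * M + (K + q / 2)) * ‖w - z‖ := by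
    intro z w
    have e : Wc q ψ v w - Wc q ψ v z = (ψ w.im - ψ z.im) * (v w - q / 2 * |w.re|) +
        ψ z.im * ((v w - q / 2 * |w.re|) - (v z - q / 2 * |z.re|)) := by
      simp only [Wc]; ring
    rw [e]
    refine (abs_add_le _ _).trans ?_
    rw [abs_mul, abs_mul]
    have h1 : |ψ w.im - ψ z.im| ≤ 2 * ‖w - z‖ := by
      refine (hψl z.im w.im).trans ?_
      rw [← Complex.sub_im]
      exact mul_le_mul_of_nonneg_left (Complex.abs_im_le_norm _) (by norm_num)
    have h2 : |ψ z.im| ≤ 1 := by rw [abs_of_nonneg (hψ _).1]; exact (hψ _).2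
    have h3 : |ψ w.im - ψ z.im| * abs (v w - q / 2 * |w.re|) ≤ (2 * ‖w - z‖) * M :=
      mul_le_mul h1 (hM w) (abs_nonneg _) (by positivity)
    have h4 : |ψ z.im| * abs ((v w - q / 2 * |w.re|) - (v z - q / 2 * |z.re|)) ≤
        1 * ((K + q / 2) * ‖w - z‖) := mul_le_mul h2 (hWl z w) (abs_nonneg _) (by norm_num)
    linarith
  have hWb : ∀ z : ℂ, |Wc q ψ v z| ≤ M := by
    intro z
    rw [Wc, abs_mul]
    have h2 : |ψ z.im| ≤ 1 := by rw [abs_of_nonneg (hψ _).1]; exact (hψ _).2
    calc |ψ z.im| * abs (v z - q / 2 * |z.re|) ≤ 1 * M :=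
          mul_le_mul h2 (hM z) (abs_nonneg _) (by norm_num)
      _ = M := one_mul M
  have hSl : ∀ z w : ℂ, |S w - S z| ≤ (4 * M + (K + q / 2)) * ‖w - z‖ := by
    intro z w
    rcases le_total ‖w - z‖ 1 with h | h
    · have h1 := hnear z
      have h2 : |w.im - (round (z.im / P) : ℤ) * P| ≤ P / 2 + 1 := by
        have e : w.im - (round (z.im / P) : ℤ) * P =
            (w - z).im + (z.im - (round (z.im / P) : ℤ) * P) := by rw [Complex.sub_im]; ring
        rw [e]
        refine (abs_add_le _ _).trans ?_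
        have := Complex.abs_im_le_norm (w - z)
        linarith
      rw [hA w _ h2, hA z (round (z.im / P)) (by linarith)]
      refine (hWc _ _).trans ?_
      have h3 : sh P (round (z.im / P)) w - sh P (round (z.im / P)) z = w - z := by
        simp only [sh]; ring
      rw [h3]
      refine mul_le_mul_of_nonneg_right ?_ (norm_nonneg _)
      linarith
    · have h1 : |S w| ≤ M := hWb _
      have h2 : |S z| ≤ M := hWb _
      have h3 : |S w - S z| ≤ 2 * M := (abs_sub _ _).trans (by linarith)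
      have h4 : 2 * M ≤ 2 * M * ‖w - z‖ := by nlinarith
      have h5 : 0 ≤ (2 * M + (K + q / 2)) * ‖w - z‖ := by positivity
      nlinarith
  refine ⟨P, Vc q d P ψ v, by linarith, ?_, ?_⟩
  · refine ⟨?_, ?_, ?_, ?_, ?_⟩
    · -- Lipschitz
      refine ⟨Real.toNNReal (4 * M + (K + q / 2) + q), ?_⟩
      apply LipschitzWith.of_dist_le_mul
      intro w z
      rw [Real.dist_eq, dist_eq_norm, Real.coe_toNNReal _ (by positivity), hV, hV]
      have e : (1 - d) * (q / 2 * |w.re| + S w) + d * v1 q w -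
          ((1 - d) * (q / 2 * |z.re| + S z) + d * v1 q z) =
          (1 - d) * (q / 2 * (|w.re| - |z.re|)) + (1 - d) * (S w - S z) +
            d * (v1 q w - v1 q z) := by ring
      rw [e]
      have a1 : |(1 - d) * (q / 2 * (|w.re| - |z.re|))| ≤ 1 * (q / 2 * ‖w - z‖) := by
        rw [abs_mul, abs_mul, abs_of_nonneg (by linarith : 0 ≤ 1 - d),
          abs_of_pos (by positivity : 0 < q / 2)]
        exact mul_le_mul (by linarith) (mul_le_mul_of_nonneg_left (absre_lip w z) (by positivity))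
          (by positivity) (by norm_num)
      have a2 : |(1 - d) * (S w - S z)| ≤ 1 * ((4 * M + (K + q / 2)) * ‖w - z‖) := by
        rw [abs_mul, abs_of_nonneg (by linarith : 0 ≤ 1 - d)]
        exact mul_le_mul (by linarith) (hSl z w) (abs_nonneg _) (by norm_num)
      have a3 : |d * (v1 q w - v1 q z)| ≤ 1 * (q / 2 * ‖w - z‖) := by
        rw [abs_mul, abs_of_pos hd0]
        exact mul_le_mul hd1 (v1_lip q hq w z) (abs_nonneg _) (by norm_num)
      refine (abs_add_le _ _).trans ?_
      have a4 := abs_add_le ((1 - d) * (q / 2 * (|w.re| - |z.re|))) ((1 - d) * (S w - S z))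
      linarith
    · -- periodic
      intro z
      have h1 := hnear z
      have h2 : S (z + P * I) = S z := by
        rw [hA (z + P * I) (round (z.im / P) + 1) ?_]
        · simp only [hS]
          congr 1
          simp only [sh]
          push_cast
          ring
        · have e : (z + P * I).im - ((round (z.im / P) + 1 : ℤ) : ℝ) * P =
              z.im - (round (z.im / P) : ℤ) * P := by
            simp only [Complex.add_im, Complex.mul_im, Complex.ofReal_re, Complex.ofReal_im,
              Complex.I_re, Complex.I_im]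
            push_cast
            ring
          rw [e]
          linarith
      have h3 : (z + P * I).re = z.re := by simp
      rw [hV, hV, h2, h3, v1_eq q (z + P * I) z h3]
    · -- sub-mean value property
      refine ⟨min r₀ 1, by positivity, ?_⟩
      intro r hr hr1 z
      have hr2 : r ≤ r₀ := hr1.trans (min_le_left _ _)
      have hr3 : r ≤ 1 := hr1.trans (min_le_right _ _)
      have h1 := hnear z
      have h2 : ∀ w ∈ ball z r, Vc q d P ψ v w = Fc q d ψ v (sh P (round (z.im / P)) w) := by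
        intro w hw
        rw [mem_ball, dist_eq_norm] at hw
        rw [hV, Fc_sh, hA w (round (z.im / P))]
        have e : w.im - (round (z.im / P) : ℤ) * P =
            (w - z).im + (z.im - (round (z.im / P) : ℤ) * P) := by rw [Complex.sub_im]; ring
        rw [e]
        refine (abs_add_le _ _).trans ?_
        have := Complex.abs_im_le_norm (w - z)
        linarith
      have h3 : av r (Vc q d P ψ v) z = av r (Fc q d ψ v) (sh P (round (z.im / P)) z) := by
        rw [← av_sh r hr]
        rw [av_eq r hr, av_eq r hr]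
        congr 1
        exact setIntegral_congr_fun measurableSet_ball h2
      rw [h3, h2 z (mem_ball_self hr)]
      exact hF ε ψ ψ' hε hε2 hψ hψ' hT r hr hr2 _
    · -- outside of the strip
      intro z hz
      have h1 : S z = 0 := by
        simp only [hS, Wc, sh_re]
        rw [hv.out _ (by rw [sh_re]; linarith), sh_re]
        ring
      rw [hV, h1, v1_out q z hz]
      ring
    · -- symmetry
      intro z
      have e1 : (-(starRingEnd ℂ) z).re = -z.re := by simp
      have e2 : (-(starRingEnd ℂ) z).im = z.im := by simp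
      have h1 : S (-(starRingEnd ℂ) z) = S z := by
        simp only [hS, Wc, sh_re, sh_im, e1, e2, abs_neg]
        congr 2
        rw [← hv.symm (sh P (round (z.im / P)) z)]
        congr 1
        simp only [sh, map_sub, map_mul, Complex.conj_ofReal, Complex.conj_I]
        ring
      have h2 : v1 q (-(starRingEnd ℂ) z) = v1 q z := by
        simp only [v1, e1, abs_neg, neg_sq]
      rw [hV, hV, h1, h2, e1, abs_neg]
  · -- closeness
    have hpt : ∀ z : ℂ, ‖z‖ ≤ R' → |Vc q d P ψ v z - v z| ≤ η := by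
      intro z hz
      have hz1 : |z.im| ≤ R' := (Complex.abs_im_le_norm z).trans hz
      have h1 : S z = Wc q ψ v z := by
        rw [hA z 0 (by simp; linarith)]
        congr 1
        simp [sh]
      rw [hV, h1, Wc]
      have e : (1 - d) * (q / 2 * |z.re| + ψ z.im * (v z - q / 2 * |z.re|)) + d * v1 q z - v z =
          -((1 - d) * (1 - ψ z.im) * (v z - q / 2 * |z.re|)) +
            d * ((v1 q z - q / 2 * |z.re|) - (v z - q / 2 * |z.re|)) := by ring
      rw [e]
      refine (abs_add_le _ _).trans ?_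
      rw [abs_neg, abs_mul, abs_mul, abs_mul, abs_of_nonneg (by linarith : 0 ≤ 1 - d),
        abs_of_nonneg (by linarith [(hψ z.im).2] : 0 ≤ 1 - ψ z.im), abs_of_pos hd0]
      have b1 : 1 - ψ z.im ≤ (ε * R') ^ 2 := by
        refine (hψ1 z.im).trans ?_
        rw [← sq_abs (ε * z.im), abs_mul, abs_of_pos hε]
        exact pow_le_pow_left₀ (by positivity) (mul_le_mul_of_nonneg_left hz1 hε.le) 2
      have b2 : (1 - d) * (1 - ψ z.im) ≤ 1 * (ε * R') ^ 2 :=
        mul_le_mul (by linarith) b1 (by linarith [(hψ z.im).2]) (by norm_num)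
      have b3 : (1 - d) * (1 - ψ z.im) * abs (v z - q / 2 * |z.re|) ≤ (1 * (ε * R') ^ 2) * M :=
        mul_le_mul b2 (hM z) (abs_nonneg _) (by positivity)
      have b4 : abs ((v1 q z - q / 2 * |z.re|) - (v z - q / 2 * |z.re|)) ≤ q + M :=
        (abs_sub _ _).trans (add_le_add (v1_near q hq z) (hM z))
      have b5 : d * abs ((v1 q z - q / 2 * |z.re|) - (v z - q / 2 * |z.re|)) ≤ d * (q + M) :=
        mul_le_mul_of_nonneg_left b4 hd0.le
      linarith
    calc L1 R (fun z => Vc q d P ψ v z - v z)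
        ≤ ∫⁻ z in closedBall (0 : ℂ) R', ‖Vc q d P ψ v z - v z‖ₑ := by
          rw [L1]
          exact lintegral_mono_set (closedBall_subset_closedBall (le_max_left _ _))
      _ ≤ ∫⁻ _ in closedBall (0 : ℂ) R', ENNReal.ofReal η := by
          apply setLIntegral_mono measurable_const
          intro z hz
          rw [mem_closedBall_zero_iff] at hz
          rw [← ofReal_norm_eq_enorm, Real.norm_eq_abs]
          exact ENNReal.ofReal_le_ofReal (hpt z hz)
      _ = ENNReal.ofReal η * volume (closedBall (0 : ℂ) R') := by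
          rw [setLIntegral_const]
      _ ≤ ENNReal.ofReal δ := by
          rw [Complex.volume_closedBall]
          have e : ENNReal.ofReal R' ^ 2 * (NNReal.pi : ENNReal) =
              ENNReal.ofReal (Real.pi * R' ^ 2) := by
            rw [ENNReal.ofReal_mul hπ.le, ENNReal.ofReal_pow hR'0, mul_comm]
            congr 1
            rw [ENNReal.ofReal, Real.toNNReal_of_nonneg hπ.le]
            rfl
          rw [e, ← ENNReal.ofReal_mul hη0.le]
          apply ENNReal.ofReal_le_ofReal
          rw [hη, div_mul_eq_mul_div, div_le_iff₀ (by positivity)]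
          nlinarith [sq_nonneg R']

end Pool.Agent.H6.LIM
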