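import Pool.Agent.H20.LIM.Targets

set_option autoImplicit false

namespace Pool.Agent.H6.LIM

open Pool.Agent.H20.LIM

/-- Tangent line inequality for a function with monotone derivative. -/
theorem tangent (f f' : ℝ → ℝ) (hf : ∀ x, HasDerivAt f (f' x) x) (hm : Monotone f') (x y : ℝ) :
    f x + f' x * (y - x) ≤ f y := by
  rcases lt_trichotomy x y with h | h | h
  · obtain ⟨c, hc, hc'⟩ := exists_hasDerivAt_eq_slope f f' h
      (fun z _ => (hf z).continuousAt.continuousWithinAt) (fun z _ => hf z)
    have h1 : f' x ≤ f' c := hm hc.1.le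
    have h2 : 0 < y - x := sub_pos.2 h
    have h3 : f' c * (y - x) = f y - f x := by
      rw [hc']; field_simp
    nlinarith
  · subst h; simp
  · obtain ⟨c, hc, hc'⟩ := exists_hasDerivAt_eq_slope f f' h
      (fun z _ => (hf z).continuousAt.continuousWithinAt) (fun z _ => hf z)
    have h1 : f' c ≤ f' x := hm hc.2.le
    have h2 : 0 < x - y := sub_pos.2 h
    have h3 : f' c * (x - y) = f x - f y := by
      rw [hc']; field_simp
    nlinarith

theorem taylor_cos (s s' : ℝ) :
    |Real.cos s' - Real.cos s + Real.sin s * (s' - s)| ≤ (s' - s) ^ 2 / 2 := by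
  have m1 : Monotone (fun x : ℝ => x - Real.sin x) := by
    apply monotone_of_deriv_nonneg
    · fun_prop
    · intro x
      have : HasDerivAt (fun x : ℝ => x - Real.sin x) (1 - Real.cos x) x :=
        (hasDerivAt_id x).sub (Real.hasDerivAt_sin x)
      rw [this.deriv]
      linarith [Real.cos_le_one x]
  have m2 : Monotone (fun x : ℝ => x + Real.sin x) := by
    apply monotone_of_deriv_nonneg
    · fun_prop
    · intro x
      have : HasDerivAt (fun x : ℝ => x + Real.sin x) (1 + Real.cos x) x :=
        (hasDerivAt_id x).add (Real.hasDerivAt_sin x)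
      rw [this.deriv]
      linarith [Real.neg_one_le_cos x]
  have d1 : ∀ x : ℝ, HasDerivAt (fun x : ℝ => x ^ 2 / 2 + Real.cos x) (x - Real.sin x) x := by
    intro x
    have := ((hasDerivAt_pow 2 x).div_const 2).add (Real.hasDerivAt_cos x)
    refine this.congr_deriv ?_
    push_cast
    ring
  have d2 : ∀ x : ℝ, HasDerivAt (fun x : ℝ => x ^ 2 / 2 - Real.cos x) (x + Real.sin x) x := by
    intro x
    have := ((hasDerivAt_pow 2 x).div_const 2).sub (Real.hasDerivAt_cos x)
    refine this.congr_deriv ?_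
    push_cast
    ring
  have t1 := tangent _ _ d1 m1 s s'
  have t2 := tangent _ _ d2 m2 s s'
  rw [abs_le]
  constructor <;> nlinarith

/-- Clamping to `[-π, π]`. -/
noncomputable def cl (s : ℝ) : ℝ := max (-Real.pi) (min Real.pi s)

theorem cl_mem (s : ℝ) (h : |s| ≤ Real.pi) : cl s = s := by
  rw [abs_le] at h
  rw [cl, min_eq_right h.2, max_eq_right h.1]

theorem cl_gt (s : ℝ) (h : Real.pi ≤ s) : cl s = Real.pi := by
  rw [cl, min_eq_left h, max_eq_right]; linarith [Real.pi_pos]

theorem cl_lt (s : ℝ) (h : s ≤ -Real.pi) : cl s = -Real.pi := by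
  rw [cl, min_eq_right (by linarith [Real.pi_pos]), max_eq_left h]

theorem abs_cl (s : ℝ) : |cl s| ≤ Real.pi := by
  rw [abs_le, cl]
  refine ⟨le_max_left _ _, max_le (by linarith [Real.pi_pos]) (min_le_left _ _)⟩

/-- The Taylor inequality for the clamped cosine. -/
theorem taylor_cl (s s' : ℝ) :
    |Real.cos (cl s') - Real.cos (cl s) + Real.sin (cl s) * (s' - s)| ≤ (s' - s) ^ 2 / 2 := by
  have hp := Real.pi_pos
  -- |cos (cl s') + 1| bounds
  have key : ∀ x y : ℝ, Real.pi ≤ x → |Real.cos (cl y) + 1| ≤ (y - x) ^ 2 / 2 := by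
    intro x y hx
    have h0 : 0 ≤ Real.cos (cl y) + 1 := by linarith [Real.neg_one_le_cos (cl y)]
    rw [abs_of_nonneg h0]
    have h1 : Real.cos (cl y) = - Real.cos (Real.pi - cl y) := by rw [Real.cos_pi_sub]; ring
    have h2 := Real.one_sub_sq_div_two_le_cos (x := Real.pi - cl y)
    have h3 : (Real.pi - cl y) ^ 2 ≤ (y - x) ^ 2 := by
      rcases le_total Real.pi y with h | h
      · rw [cl_gt y h]; simp; positivity
      · have h4 : y ≤ cl y := by rw [cl, min_eq_right h]; exact le_max_right _ _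
        have h5 : cl y ≤ Real.pi := (abs_le.1 (abs_cl y)).2
        nlinarith
    rw [h1]; linarith
  have key' : ∀ x y : ℝ, x ≤ -Real.pi → |Real.cos (cl y) + 1| ≤ (y - x) ^ 2 / 2 := by
    intro x y hx
    have h0 : 0 ≤ Real.cos (cl y) + 1 := by linarith [Real.neg_one_le_cos (cl y)]
    rw [abs_of_nonneg h0]
    have h1 : Real.cos (cl y) = - Real.cos (cl y + Real.pi) := by rw [Real.cos_add_pi]; ring
    have h2 := Real.one_sub_sq_div_two_le_cos (x := cl y + Real.pi)
    have h3 : (cl y + Real.pi) ^ 2 ≤ (y - x) ^ 2 := by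
      rcases le_total y (-Real.pi) with h | h
      · rw [cl_lt y h]; simp; positivity
      · have h4 : cl y ≤ y := by
          rw [cl]; exact max_le h (min_le_right _ _)
        have h5 : -Real.pi ≤ cl y := (abs_le.1 (abs_cl y)).1
        nlinarith
    rw [h1]; linarith
  rcases le_total Real.pi s with h | h
  · rw [cl_gt s h, Real.cos_pi, Real.sin_pi]
    simpa using key s s' h
  rcases le_total s (-Real.pi) with h' | h'
  · rw [cl_lt s h', Real.cos_neg, Real.cos_pi, Real.sin_neg, Real.sin_pi]
    simpa using key' s s' h'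
  have hs : cl s = s := cl_mem s (abs_le.2 ⟨h', h⟩)
  rw [hs]
  have t := taylor_cos s (cl s')
  have e : Real.cos (cl s') - Real.cos s + Real.sin s * (s' - s) =
      (Real.cos (cl s') - Real.cos s + Real.sin s * (cl s' - s)) + Real.sin s * (s' - cl s') := by
    ring
  rw [e]
  refine (abs_add_le _ _).trans ?_
  rw [abs_mul]
  rcases le_total Real.pi s' with g | g
  · rw [cl_gt s' g] at t ⊢
    have h1 : |Real.sin s| ≤ Real.pi - s := by
      have : Real.sin s = Real.sin (Real.pi - s) := (Real.sin_pi_sub s).symm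
      rw [this]
      exact (Real.abs_sin_le_abs).trans (le_of_eq (abs_of_nonneg (by linarith)))
    have h2 : |s' - Real.pi| = s' - Real.pi := abs_of_nonneg (by linarith)
    rw [h2]
    have h3 : |Real.sin s| * (s' - Real.pi) ≤ (Real.pi - s) * (s' - Real.pi) :=
      mul_le_mul_of_nonneg_right h1 (by linarith)
    nlinarith [sq_nonneg (s' - Real.pi)]
  rcases le_total s' (-Real.pi) with g' | g'
  · rw [cl_lt s' g'] at t ⊢
    have h1 : |Real.sin s| ≤ s + Real.pi := by
      have : Real.sin s = - Real.sin (s + Real.pi) := by rw [Real.sin_add_pi]; ring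
      rw [this, abs_neg]
      exact (Real.abs_sin_le_abs).trans (le_of_eq (abs_of_nonneg (by linarith)))
    have h2 : |s' - -Real.pi| = -Real.pi - s' := by
      rw [abs_of_nonpos (by linarith)]; ring
    rw [h2]
    have h3 : |Real.sin s| * (-Real.pi - s') ≤ (s + Real.pi) * (-Real.pi - s') :=
      mul_le_mul_of_nonneg_right h1 (by linarith)
    nlinarith [sq_nonneg (-Real.pi - s')]
  · rw [cl_mem s' (abs_le.2 ⟨g', g⟩)] at t ⊢
    simpa using t

/-- PSI: a cut off function with small derivatives. -/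
theorem pf_psi : T_PSI := by
  intro ε hε
  have hp := Real.pi_pos
  refine ⟨fun y => (1 + Real.cos (cl (2 * ε * y))) / 2, fun y => -ε * Real.sin (cl (2 * ε * y)),
    ?_, ?_, ?_, ?_, ?_⟩
  · intro y
    have h1 := Real.neg_one_le_cos (cl (2 * ε * y))
    have h2 := Real.cos_le_one (cl (2 * ε * y))
    constructor <;> simp only <;> linarith
  · intro y hy
    have h1 : Real.pi ≤ |2 * ε * y| := by
      rw [abs_mul, abs_of_pos (by positivity : 0 < 2 * ε)]
      rw [div_le_iff₀ (by positivity)] at hy
      linarith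
    simp only
    rcases le_abs.1 h1 with h | h
    · rw [cl_gt _ h, Real.cos_pi]; norm_num
    · rw [cl_lt _ (by linarith), Real.cos_neg, Real.cos_pi]; norm_num
  · intro y
    have h1 := Real.one_sub_sq_div_two_le_cos (x := cl (2 * ε * y))
    have h2 : (cl (2 * ε * y)) ^ 2 ≤ (2 * ε * y) ^ 2 := by
      rw [sq_le_sq]
      rcases le_total |2 * ε * y| Real.pi with h | h
      · rw [cl_mem _ h]
      · exact (abs_cl _).trans h
    simp only
    nlinarith
  · intro y
    simp only [abs_mul, abs_neg, abs_of_pos hε]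
    have := Real.abs_sin_le_one (cl (2 * ε * y))
    nlinarith [abs_nonneg (Real.sin (cl (2 * ε * y)))]
  · intro y y'
    have t := taylor_cl (2 * ε * y) (2 * ε * y')
    have e : (1 + Real.cos (cl (2 * ε * y'))) / 2 - (1 + Real.cos (cl (2 * ε * y))) / 2 -
        -ε * Real.sin (cl (2 * ε * y)) * (y' - y) =
        (1 / 2) * (Real.cos (cl (2 * ε * y')) - Real.cos (cl (2 * ε * y)) +
          Real.sin (cl (2 * ε * y)) * (2 * ε * y' - 2 * ε * y)) := by ring
    simp only
    rw [e, abs_mul, abs_of_pos (by norm_num : (0 : ℝ) < 1 / 2)]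
    have e2 : (2 * ε * y' - 2 * ε * y) ^ 2 / 2 = 2 * (ε ^ 2 * (y' - y) ^ 2) := by ring
    rw [e2] at t
    linarith

end Pool.Agent.H6.LIM
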